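import Pool.Agent.Helper30.KC.GoalsI
import Pool.Agent.Helper39.KC.AR

/-!
# Project KI (MP_bf413e_co), packet AX: a cycle crosses a disc
-/

set_option autoImplicit false

namespace Pool.Agent.Helper24.KI

open scoped Classical
open Finset
open Pool.Agent.Helper94.KC
open Pool.Agent.Helper30.KC
open Pool.Agent.Helper39.KC

/-- **AX** -/
theorem pAX (hEV : StmtEV) (hDB : StmtDB) (hAC : StmtAC) : StmtAX := by
  intro V _ T hT x₀ w₀ hw₀ hnb₀ x hx D y w' hw' hD hxD hxw'
  obtain ⟨ev1, ev2, ev3, ev4, ev5, ev6⟩ := hEV V T hT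
  -- the rotated cycle
  obtain ⟨w, hwc, hwe⟩ : ∃ w : (sk T).Walk x x, w.IsCycle ∧ wed w = wed w₀ :=
    ⟨w₀.rotate x hx, hw₀.rotate hx, wed_rotate w₀ hx⟩
  have hnb : ¬ Bounds T (wed w) := by rw [hwe]; exact hnb₀
  have hz : (wed w').Nonempty := by
    rw [← Finset.card_pos, (ev4 y w' hw').2.1]
    have := hw'.three_le_length
    omega
  obtain ⟨db1, db2⟩ := hDB V T hT D (wed w') hD hz
  have hbd : ∀ z ⊆ ed D, Even2 z → Bounds T z := by
    intro z hz1 hz2
    obtain ⟨D', h1, h2⟩ := db1 z hz1 hz2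
    exact ⟨D', h1.trans hD.sub, h2⟩
  have hS : ∀ v, v ∉ ({v | v ∈ w'.support} : Set V) → (∃ t ∈ D, v ∈ t) →
      ∀ t ∈ T, v ∈ t → t ∈ D := by
    intro v hv ⟨t', ht', hvt'⟩ t ht hvt
    refine db2 v ?_ t' (hD.sub ht') t ht hvt' hvt ht'
    intro e he hve
    exact hv (mem_support_of_wed w' he hve)
  have hxint : ∀ t ∈ T, x ∈ t → t ∈ D := hS x hxw' hxD
  have hno : ¬ wed w ⊆ ed D := fun h => hnb (hbd _ h (ev4 x w hwc).1)
  -- first hit in both directions
  rcases hit hS w hxint with h1 | ⟨p, hp, W1, W2, hW, hW1⟩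
  · exact absurd h1 hno
  rcases hit hS W2.reverse hxint with h1 | ⟨q, hq, V1, V2, hV, hV1⟩
  · exfalso
    apply hno
    rw [hW, wed_append]
    rw [wed_reverse] at h1
    exact Finset.union_subset hW1 h1
  have hp' : p ∈ w'.support := hp
  have hq' : q ∈ w'.support := hq
  have hW2 : W2 = V2.reverse.append V1.reverse := by
    rw [← SimpleGraph.Walk.reverse_append, ← hV, SimpleGraph.Walk.reverse_reverse]
  -- the trail from q to p through x
  have htrail : (V1.reverse.append W1).IsTrail := by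
    rw [SimpleGraph.Walk.isTrail_def]
    have h1 := hwc.isTrail.edges_nodup
    rw [hW, hW2, SimpleGraph.Walk.edges_append, SimpleGraph.Walk.edges_append] at h1
    rw [SimpleGraph.Walk.edges_append]
    have h2 := (List.nodup_append'.1 h1)
    have h3 := (List.nodup_append'.1 h2.2.1)
    refine List.nodup_append'.2 ⟨h3.2.1, h2.1, ?_⟩
    intro e he1 he2
    exact h2.2.2 he2 (List.mem_append_right _ he1)
  have hAw : wed (V1.reverse.append W1) ⊆ wed w₀ := by
    rw [← hwe, hW, hW2, wed_append, wed_append, wed_append]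
    intro e he
    rw [Finset.mem_union] at he
    rw [Finset.mem_union, Finset.mem_union]
    tauto
  have hAD : wed (V1.reverse.append W1) ⊆ ed D := by
    rw [wed_append, wed_reverse]
    exact Finset.union_subset hV1 hW1
  have hxp : x ≠ p := fun h => hxw' (h ▸ hp')
  have hxq : x ≠ q := fun h => hxw' (h ▸ hq')
  -- a trail b from p to q in the boundary
  obtain ⟨b, hb1, hb2⟩ : ∃ b : (sk T).Walk p q, b.IsTrail ∧ wed b ⊆ wed w' := by
    by_cases hpq : p = q
    · subst hpq
      refine ⟨SimpleGraph.Walk.nil, SimpleGraph.Walk.IsTrail.nil, ?_⟩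
      rw [wed_nil]; exact Finset.empty_subset _
    · obtain ⟨A, B, hA, hB, hlen, _, hun, _, _⟩ := hAC V (sk T) y p q w' hw' hp' hq' hpq
      refine ⟨A, hA.isTrail, ?_⟩
      rw [← hun]; exact Finset.subset_union_left
  have hw'D : wed w' ⊆ ed D := by
    rw [← hD.bdy]
    intro e he
    simp only [bd, Finset.mem_filter] at he
    obtain ⟨he1, he2⟩ := he
    simp only [ed, Finset.mem_filter, Finset.mem_univ, true_and] at he1 ⊢
    refine ⟨he1.1, ?_⟩
    have h1 : (D.filter (fun t => e ⊆ t)).Nonempty := by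
      rw [← Finset.card_pos]
      exact he2.pos
    obtain ⟨t, ht⟩ := h1
    rw [Finset.mem_filter] at ht
    exact ⟨t, ht.1, ht.2⟩
  have hsub : symmDiff (wed (V1.reverse.append W1)) (wed b) ⊆ ed D := by
    intro e he
    rw [Finset.mem_symmDiff] at he
    rcases he with h | h
    · exact hAD h.1
    · exact hw'D (hb2 h.1)
  have hev := even_symmDiff (V1.reverse.append W1) b htrail hb1
  refine ⟨wed (V1.reverse.append W1), hAw, wed b, hb2, hev, hbd _ hsub hev, ?_⟩
  -- the edges at x
  intro e he hxe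
  rw [← hwe, hW, hW2, wed_append, wed_append, Finset.mem_union, Finset.mem_union] at he
  rw [wed_append, Finset.mem_union]
  rcases he with h | h | h
  · exact Or.inr h
  · exfalso
    have hxs : x ∈ V2.reverse.support := mem_support_of_wed _ h hxe
    have hx2 : x ∈ V2.reverse.support.tail :=
      ((SimpleGraph.Walk.mem_support_iff _).1 hxs).resolve_left hxp
    have hxs1 : x ∈ V1.reverse.support := SimpleGraph.Walk.end_mem_support _
    have hx1 : x ∈ V1.reverse.support.tail :=
      ((SimpleGraph.Walk.mem_support_iff _).1 hxs1).resolve_left hxq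
    have hnd := hwc.support_nodup
    rw [hW, hW2, SimpleGraph.Walk.tail_support_append, SimpleGraph.Walk.tail_support_append] at hnd
    exact (List.nodup_append'.1 (List.nodup_append'.1 hnd).2.1).2.2 hx2 hx1
  · exact Or.inl h

end Pool.Agent.Helper24.KI
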